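import Mathlib

/-!
The theorem of Mason and Stothers for the zeros of `F`, `F - 1728 G` and `G` with multiplicities.
-/

set_option autoImplicit false

open Polynomial

namespace Run7.h197.FMZ

variable {k : Type} [Field k] [DecidableEq k]

/-- the number of distinct roots bounds the degree of the radical -/
theorem radical_le {a : k[X]} (ha : a ≠ 0) (hs : a.Splits) :
    (UniqueFactorizationMonoid.radical a).natDegree ≤ a.roots.toFinset.card := by
  have h1 : UniqueFactorizationMonoid.radical a ∣ ∏ r ∈ a.roots.toFinset, (X - C r) := by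
    rw [← UniqueFactorizationMonoid.exists_dvd_pow_iff_radical_dvd ha]
    refine ⟨Multiset.card a.roots, ?_⟩
    have h2 := hs.eq_prod_roots
    rw [Finset.prod_multiset_map_count] at h2
    obtain ⟨P', hP'⟩ : ∃ P', P' = ∏ m ∈ a.roots.toFinset, (X - C m) ^ Multiset.count m a.roots :=
      ⟨_, rfl⟩
    rw [← hP'] at h2
    have h5 : a ∣ P' := by
      refine ⟨C (a.leadingCoeff)⁻¹, ?_⟩
      have h6 : C a.leadingCoeff * C (a.leadingCoeff)⁻¹ = 1 := by
        rw [← C_mul, mul_inv_cancel₀ (leadingCoeff_ne_zero.mpr ha), C_1]
      calc P' = (C a.leadingCoeff * C (a.leadingCoeff)⁻¹) * P' := by rw [h6, one_mul]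
        _ = C a.leadingCoeff * P' * C (a.leadingCoeff)⁻¹ := by ring
        _ = a * C (a.leadingCoeff)⁻¹ := by rw [← h2]
    refine h5.trans ?_
    rw [hP', ← Finset.prod_pow]
    refine Finset.prod_dvd_prod_of_dvd _ _ fun r _ => pow_dvd_pow _ ?_
    exact Multiset.count_le_card _ _
  have h3 : (∏ r ∈ a.roots.toFinset, (X - C r)) ≠ 0 :=
    Finset.prod_ne_zero_iff.2 fun r _ => X_sub_C_ne_zero r
  refine (natDegree_le_of_dvd h1 h3).trans ?_
  rw [natDegree_prod _ _ fun r _ => X_sub_C_ne_zero r]
  simp

/-- the number of distinct roots is bounded by the number of roots whose multiplicity is not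
divisible by `m` -/
theorem card_le {a : k[X]} (hs : a.Splits) {m : ℕ} (hm : 1 ≤ m) :
    m * a.roots.toFinset.card ≤
      (m - 1) * (a.roots.toFinset.filter fun r => ¬ m ∣ a.rootMultiplicity r).card +
        a.natDegree := by
  rw [hs.natDegree_eq_card_roots, ← Multiset.toFinset_sum_count_eq, Finset.card_eq_sum_ones,
    Finset.card_filter, Finset.mul_sum, Finset.mul_sum, ← Finset.sum_add_distrib]
  refine Finset.sum_le_sum fun r hr => ?_
  have h1 : 1 ≤ a.roots.count r := by
    rw [Multiset.one_le_count_iff_mem]
    exact Multiset.mem_toFinset.1 hr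
  rw [count_roots] at h1 ⊢
  by_cases h : m ∣ a.rootMultiplicity r
  · rw [if_neg (not_not.2 h)]
    have := Nat.le_of_dvd h1 h
    omega
  · rw [if_pos h]
    omega

/-- **Mason and Stothers** -/
theorem mason [CharZero k] {F G : k[X]} (hcop : IsCoprime F G)
    (hnc : F.natDegree ≠ 0 ∨ G.natDegree ≠ 0) (hF : F.Splits) (hG : G.Splits)
    (hH : (F - C 1728 * G).Splits) : F ≠ 0 ∧ G ≠ 0 ∧ F - C 1728 * G ≠ 0 ∧
    ∃ D : ℕ, 1 ≤ D ∧ (G.roots.toFinset.card = 0 → 6 ≤ D + 5) ∧
      D + 6 ≤ 6 * G.roots.toFinset.card +
        4 * (F.roots.toFinset.filter fun r => ¬ 3 ∣ F.rootMultiplicity r).card +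
        3 * ((F - C 1728 * G).roots.toFinset.filter fun r =>
          ¬ 2 ∣ (F - C 1728 * G).rootMultiplicity r).card := by
  have h1728 : (C (1728 : k)) ≠ 0 := C_ne_zero.2 (by norm_num)
  have u1728 : IsUnit (C (1728 : k)) := by
    rw [isUnit_C]
    exact (by norm_num : (1728 : k) ≠ 0).isUnit
  have hF0 : F ≠ 0 := by
    rintro rfl
    have h1 : IsUnit G := by
      rw [isCoprime_zero_left] at hcop
      exact hcop
    rcases hnc with h | h
    · simp at h
    · exact h (natDegree_eq_zero_of_isUnit h1)
  have hG0 : G ≠ 0 := by
    rintro rfl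
    have h1 : IsUnit F := by
      rw [isCoprime_zero_right] at hcop
      exact hcop
    rcases hnc with h | h
    · exact h (natDegree_eq_zero_of_isUnit h1)
    · simp at h
  have hH0 : F - C 1728 * G ≠ 0 := by
    intro h0
    have h1 : F = C 1728 * G := sub_eq_zero.1 h0
    have h2 : IsUnit G := by
      rw [h1] at hcop
      have := hcop.of_mul_left_right
      rwa [isCoprime_self] at this
    have h3 := natDegree_eq_zero_of_isUnit h2
    rcases hnc with h | h
    · apply h
      rw [h1, natDegree_C_mul (by norm_num : (1728 : k) ≠ 0), h3]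
    · exact h h3
  refine ⟨hF0, hG0, hH0, ?_⟩
  set H := F - C 1728 * G with hHdef
  -- the three polynomials
  have ha : F ≠ 0 := hF0
  have hb : -H ≠ 0 := neg_ne_zero.2 hH0
  have hc : -(C 1728 * G) ≠ 0 := neg_ne_zero.2 (mul_ne_zero h1728 hG0)
  have hFcG : IsCoprime F (C 1728 * G) := (isCoprime_mul_unit_left_right u1728 F G).2 hcop
  have hFH : IsCoprime F (-H) := by
    rw [hHdef, neg_sub]
    have := (IsCoprime.add_mul_left_right hFcG (-1))
    have e : C 1728 * G - F = C 1728 * G + F * (-1) := by ring
    rw [e]
    exact this
  have hHG : IsCoprime H (C 1728 * G) := by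
    have := (IsCoprime.add_mul_left_left hFcG (-1))
    have e : H = F + (C 1728 * G) * (-1) := by rw [hHdef]; ring
    rw [e]
    exact this
  have hsum : F + -H + -(C 1728 * G) = 0 := by rw [hHdef]; ring
  rcases Polynomial.abc ha hb hc hFH hsum with ⟨h1, h2, h3⟩ | ⟨h1, h2, h3⟩
  · -- the degree of the radical
    have hr : (UniqueFactorizationMonoid.radical (F * -H * -(C 1728 * G))).natDegree ≤
        F.roots.toFinset.card + H.roots.toFinset.card + G.roots.toFinset.card := by
      have e1 : F * -H * -(C 1728 * G) = C 1728 * (F * (H * G)) := by ring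
      rw [e1, UniqueFactorizationMonoid.radical_mul_of_isUnit_left u1728]
      have d1 : UniqueFactorizationMonoid.radical (F * (H * G)) ∣
          UniqueFactorizationMonoid.radical F * (UniqueFactorizationMonoid.radical H *
            UniqueFactorizationMonoid.radical G) :=
        UniqueFactorizationMonoid.radical_mul_dvd.trans
          (mul_dvd_mul_left _ UniqueFactorizationMonoid.radical_mul_dvd)
      have d2 := natDegree_le_of_dvd d1 (mul_ne_zero UniqueFactorizationMonoid.radical_ne_zero
        (mul_ne_zero UniqueFactorizationMonoid.radical_ne_zero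
          UniqueFactorizationMonoid.radical_ne_zero))
      rw [natDegree_mul UniqueFactorizationMonoid.radical_ne_zero
        (mul_ne_zero UniqueFactorizationMonoid.radical_ne_zero
          UniqueFactorizationMonoid.radical_ne_zero),
        natDegree_mul UniqueFactorizationMonoid.radical_ne_zero
          UniqueFactorizationMonoid.radical_ne_zero] at d2
      have := radical_le hF0 hF
      have := radical_le hH0 hH
      have := radical_le hG0 hG
      omega
    rw [natDegree_neg] at h2 h3
    rw [natDegree_C_mul (by norm_num : (1728 : k) ≠ 0)] at h3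
    have c3 := card_le hF (m := 3) (by norm_num)
    have c2 := card_le hH (m := 2) (by norm_num)
    refine ⟨max F.natDegree (max H.natDegree G.natDegree), ?_, ?_, ?_⟩
    · rcases hnc with h | h
      · exact le_max_of_le_left (by omega)
      · exact le_max_of_le_right (le_max_of_le_right (by omega))
    · intro _
      rcases hnc with h | h
      · have := le_max_left F.natDegree (max H.natDegree G.natDegree)
        omega
      · have := le_max_right F.natDegree (max H.natDegree G.natDegree)
        have := le_max_right H.natDegree G.natDegree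
        omega
    · have m1 := le_max_left F.natDegree (max H.natDegree G.natDegree)
      have m2 := le_max_right F.natDegree (max H.natDegree G.natDegree)
      have m3 := le_max_left H.natDegree G.natDegree
      have m4 : max F.natDegree (max H.natDegree G.natDegree) + 1 ≤
          (UniqueFactorizationMonoid.radical (F * -H * -(C 1728 * G))).natDegree := by
        rcases max_choice F.natDegree (max H.natDegree G.natDegree) with h | h
        · rw [h]; exact h1
        · rw [h]
          rcases max_choice H.natDegree G.natDegree with h' | h'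
          · rw [h']; exact h2
          · rw [h']; exact h3
      omega
  · exfalso
    rcases hnc with h | h
    · exact h (derivative_eq_zero.1 h1)
    · have h4 := derivative_eq_zero.1 h3
      rw [natDegree_neg, natDegree_C_mul (by norm_num : (1728 : k) ≠ 0)] at h4
      exact h h4

end Run7.h197.FMZ
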