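import Pool.Agent.Run7.h197.ST.Main
import Pool.Agent.Y673.DK.Fam2
import Pool.Agent.Y673.CB.App
import Pool.Agent.K4H56.JD.Pl

/-!
The local conditions on the invariants of curves which are congruent to a given curve modulo a large
number, and their consequences for the parameter of a one-parameter family.
-/

set_option autoImplicit false

open IsDedekindDomain NumberField Polynomial

namespace Run7.h197.FMZ

open Pool.Agent.Y673.Loc Pool.Agent.Y673.Loc.ZV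

section cond
variable {K : Type} [Field K] [NumberField K]

/-- the local conditions for the invariant -/
def Cond (K : Type) [Field K] [NumberField K] (c₀ p : ℕ) (j : K) : Prop :=
  ∀ v : HeightOneSpectrum (𝓞 K), (adv K v).v (c₀ : K) = 0 →
    ((adv K v).v j < 0 → (p : ℤ) ∣ (adv K v).v j) ∧
    ((adv K v).G 0 j → (3 : ℤ) ∣ (adv K v).v j ∧ (2 : ℤ) ∣ (adv K v).v (j - 1728))

theorem adv_zero (v : HeightOneSpectrum (𝓞 K)) : (adv K v).v (0 : K) = 0 := by
  show -WithZero.log (v.valuation K 0) = 0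
  simp

/-- the places dividing a natural number -/
theorem adv_nat_dvd (v : HeightOneSpectrum (𝓞 K)) {a c : ℕ} (hc : c ≠ 0) (h : a ∣ c)
    (hv : (adv K v).v (c : K) = 0) : (adv K v).v (a : K) = 0 := by
  obtain ⟨b, rfl⟩ := h
  have ha0 : a ≠ 0 := fun h0 => hc (by rw [h0, zero_mul])
  have hb0 : b ≠ 0 := fun h0 => hc (by rw [h0, mul_zero])
  have h1 := v_natCast_nonneg v a ha0
  have h2 := v_natCast_nonneg v b hb0
  rw [Nat.cast_mul, (adv K v).mul' _ _ (Nat.cast_ne_zero.2 ha0) (Nat.cast_ne_zero.2 hb0)] at hv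
  omega

theorem cond_of_HE {c₀ P : ℕ} (hc₀ : c₀ ≠ 0) (h6 : 6 ∣ c₀) {A B : K}
    (h : Pool.Agent.Y673.CB.HE K c₀ P A B) : ∃ p, P ≤ p ∧ Cond K c₀ p (jv A B) := by
  obtain ⟨hD, p, hp, h1⟩ := h
  refine ⟨p, hp, fun v hv => ⟨(h1 v hv).1, fun hG => ?_⟩⟩
  have h2 := adv_nat_dvd v (a := 2) hc₀ ((by norm_num : (2 : ℕ) ∣ 6).trans h6) hv
  have h3 := adv_nat_dvd v (a := 3) hc₀ ((by norm_num : (3 : ℕ) ∣ 6).trans h6) hv
  have h12 := (h1 v hv).2 hG
  constructor
  · by_cases hj : jv A B = 0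
    · rw [hj, adv_zero]
      exact dvd_zero _
    · rw [Pool.Agent.K4H56.JD.v_jv (by exact_mod_cast h2) (by exact_mod_cast h3) hD hj]
      omega
  · by_cases hj : jv A B - 1728 = 0
    · rw [hj, adv_zero]
      exact dvd_zero _
    · rw [Pool.Agent.K4H56.JD.v_jv1728 (by exact_mod_cast h2) (by exact_mod_cast h3) hD hj]
      omega

theorem below {L : Type} [Field L] [NumberField L] [Algebra K L] (w : HeightOneSpectrum (𝓞 L)) :
    ∃ (v : HeightOneSpectrum (𝓞 K)) (e : ℤ), 0 < e ∧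
      (∀ x : K, (adv L w).v (algebraMap K L x) = e * (adv K v).v x) ∧
      ∀ c : ℕ, (adv L w).v (c : L) = 0 → (adv K v).v (c : K) = 0 := by
  obtain ⟨v, e, he, hve⟩ := Pool.Agent.Y673.DK.adv_under K L w
  have he' : (0 : ℤ) < e := by exact_mod_cast he
  refine ⟨v, e, he', hve, fun c hc => ?_⟩
  have h1 := hve (c : K)
  rw [map_natCast, hc] at h1
  rcases mul_eq_zero.1 h1.symm with h2 | h2
  · omega
  · exact h2

theorem Cond.ext {L : Type} [Field L] [NumberField L] [Algebra K L] {c₀ p : ℕ} {j : K}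
    (h : Cond K c₀ p j) : Cond L c₀ p (algebraMap K L j) := by
  intro w hw
  obtain ⟨v, e, he, hve, hc⟩ := below (K := K) w
  obtain ⟨h1, h2⟩ := h v (hc _ hw)
  rw [hve j]
  refine ⟨fun hj => ?_, fun hG => ?_⟩
  · have : (adv K v).v j < 0 := by
      by_contra hcon
      push Not at hcon
      have := mul_nonneg he.le hcon
      omega
    exact Dvd.dvd.mul_left (h1 this) _
  · have hG' : (adv K v).G 0 j := by
      rcases hG with hG | hG
      · left
        exact (map_eq_zero_iff _ (algebraMap K L).injective).1 hG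
      · right
        rw [hve j] at hG
        by_contra hcon
        push Not at hcon
        have := mul_neg_of_pos_of_neg he hcon
        omega
    have e1 : algebraMap K L j - 1728 = algebraMap K L (j - 1728) := by
      rw [map_sub, map_ofNat]
    rw [e1, hve]
    exact ⟨Dvd.dvd.mul_left (h2 hG').1 _, Dvd.dvd.mul_left (h2 hG').2 _⟩

/-- a finite set of places divides a natural number -/
theorem exists_nat (S : Set (HeightOneSpectrum (𝓞 K))) (hS : S.Finite) :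
    ∃ c : ℕ, c ≠ 0 ∧ ∀ v ∈ S, (adv K v).v (c : K) ≠ 0 := by
  classical
  obtain ⟨n, hn⟩ : ∃ n : HeightOneSpectrum (𝓞 K) → ℕ, ∀ v, n v = Ideal.absNorm v.asIdeal :=
    ⟨_, fun _ => rfl⟩
  have hne : ∀ v : HeightOneSpectrum (𝓞 K), n v ≠ 0 := fun v => by
    rw [hn, Ne, Ideal.absNorm_eq_zero_iff]
    exact v.ne_bot
  have hprod : ∏ v ∈ hS.toFinset, n v ≠ 0 := Finset.prod_ne_zero_iff.2 fun v _ => hne v
  refine ⟨∏ v ∈ hS.toFinset, n v, hprod, ?_⟩
  intro v hv h0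
  have hd : n v ∣ ∏ v ∈ hS.toFinset, n v := Finset.dvd_prod_of_mem n (hS.mem_toFinset.2 hv)
  have h1 := adv_nat_dvd v hprod hd h0
  have h2 : ((n v : ℕ) : 𝓞 K) ≠ 0 := by
    rw [Nat.cast_ne_zero]
    exact hne v
  have h4 : ((n v : ℕ) : 𝓞 K) ∈ v.asIdeal ^ 1 := by
    rw [pow_one, hn]
    exact Ideal.absNorm_mem v.asIdeal
  have h3 := (le_adv_iff K v ((n v : ℕ) : 𝓞 K) h2 1).2 h4
  rw [map_natCast, h1] at h3
  norm_num at h3

end cond

section near
variable {K : Type} [Field K] [NumberField K]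

/-- polynomials without a zero at `β` are units near `β` -/
theorem unit_near (P : K[X]) {β : K} (hP : P.eval β ≠ 0) :
    ∃ S : Set (HeightOneSpectrum (𝓞 K)), S.Finite ∧ ∀ v ∉ S, ∀ x : K, (adv K v).G 1 (x - β) →
      (adv K v).E 0 (P.eval x) := by
  refine ⟨{v | (adv K v).v (P.eval β) ≠ 0} ∪ {v | ¬ (adv K v).G 0 β} ∪
    ⋃ i ∈ P.support, {v | ¬ (adv K v).G 0 (P.coeff i)}, ?_, ?_⟩
  · exact ((Pool.Agent.K4H56.IF.supp_finite hP).union (Pool.Agent.K4H56.IF.pole_finite β)).union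
      (Set.Finite.biUnion P.support.finite_toSet fun i _ => Pool.Agent.K4H56.IF.pole_finite _)
  · intro v hv x hx
    simp only [Set.mem_union, Set.mem_ofPred_eq, not_or, not_not, Set.mem_iUnion, not_exists] at hv
    obtain ⟨⟨a1, a2⟩, a3⟩ := hv
    refine Pool.Agent.Y673.DK.near P (fun i => ?_) a2 ⟨hP, a1⟩ hx
    by_cases hi : i ∈ P.support
    · exact a3 i hi
    · rw [notMem_support_iff.1 hi]
      exact G_zero

/-- the order of a polynomial near a point -/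
theorem ord_near (F : K[X]) (hF : F ≠ 0) (β : K) :
    ∃ S : Set (HeightOneSpectrum (𝓞 K)), S.Finite ∧ ∀ v ∉ S, ∀ t : K, t ≠ β →
      (adv K v).G 1 (t - β) →
      (adv K v).E ((F.rootMultiplicity β : ℤ) * (adv K v).v (t - β)) (F.eval t) := by
  obtain ⟨P, h1, h2⟩ := Polynomial.exists_eq_pow_rootMultiplicity_mul_and_not_dvd F hF β
  obtain ⟨S, hS, hv⟩ := unit_near P (β := β) (fun h => h2 (dvd_iff_isRoot.2 h))
  refine ⟨S, hS, fun v hvS t htβ ht => ?_⟩
  have h3 := hv v hvS t ht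
  have h4 := ((E_of_ne (w := adv K v) (sub_ne_zero.2 htβ)).pow (F.rootMultiplicity β)).mul h3
  have h6 := congrArg (Polynomial.eval t) h1
  rw [eval_mul, eval_pow, eval_sub, eval_X, eval_C] at h6
  rw [← h6, add_zero] at h4
  exact h4

/-- integrality -/
def IntD {L : Type} [Field L] (N : ℕ) (x : L) : Prop := IsIntegral ℤ ((N : L) * x)

theorem IntD.intN {L : Type} [Field L] {N : ℕ} {x : L} (h : IntD N x) :
    Pool.Agent.K4H56.IF.IntN N x := ⟨1, by rw [pow_one]; exact h⟩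

theorem IntD.map {L L' : Type} [Field L] [Field L'] {N : ℕ} {x : L} (f : L →+* L')
    (h : IntD N x) : IntD N (f x) := by
  have e : (N : L') * f x = f ((N : L) * x) := by rw [map_mul, map_natCast]
  unfold IntD
  rw [e]
  exact map_isIntegral_int f h

theorem IntD.mono {L : Type} [Field L] {N M : ℕ} {x : L} (h : IntD N x) (hd : N ∣ M) :
    IntD M x := by
  obtain ⟨c, rfl⟩ := hd
  unfold IntD
  have e : ((N * c : ℕ) : L) * x = (c : L) * ((N : L) * x) := by push_cast; ring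
  rw [e]
  exact (Pool.Agent.K4H56.IF.isIntegral_nat c).mul h

theorem IntD.sub {L : Type} [Field L] {N : ℕ} {x y : L} (h : IntD N x) (h' : IntD N y) :
    IntD N (x - y) := by
  unfold IntD
  rw [mul_sub]
  exact IsIntegral.sub h h'

theorem IntD.root {L : Type} [Field L] {N : ℕ} {x : L} {n : ℕ} (hn : 1 ≤ n)
    (h : IntD N (x ^ n)) : IntD N x := by
  refine IsIntegral.of_pow (n := n) (by omega) ?_
  have e : ((N : L) * x) ^ n = (N : L) ^ (n - 1) * ((N : L) * x ^ n) := by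
    have e2 : (N : L) ^ n = (N : L) ^ (n - 1) * (N : L) := by
      rw [← pow_succ]
      congr 1
      omega
    rw [mul_pow, e2]
    ring
  rw [e]
  exact ((Pool.Agent.K4H56.IF.isIntegral_nat N).pow (n - 1)).mul h

theorem IntD.G0 {N : ℕ} {x : K} (hN : N ≠ 0) {v : HeightOneSpectrum (𝓞 K)}
    (hv : (adv K v).v (N : K) = 0) (h : IntD N x) : (adv K v).G 0 x := h.intN.G0 hN hv

theorem exists_IntD (x : K) : ∃ N : ℕ, N ≠ 0 ∧ IntD N x := by
  obtain ⟨N, hN, k, hk⟩ := Pool.Agent.K4H56.IF.exists_IntN x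
  refine ⟨N ^ k, pow_ne_zero _ hN, ?_⟩
  unfold IntD
  rw [Nat.cast_pow]
  exact hk

/-- near a point which is not a pole -/
theorem zero_near (F G : K[X]) (hF : F ≠ 0) {ρ : K} (hG : G.eval ρ ≠ 0) (N : ℕ) (hN : N ≠ 0) :
    ∃ S : Set (HeightOneSpectrum (𝓞 K)), S.Finite ∧ ∀ v ∉ S, ∀ t : K, IntD N t → t ≠ ρ →
      (adv K v).v (t - ρ) = 0 ∨ (adv K v).G 0 (F.eval t / G.eval t) ∧
        (adv K v).E ((F.rootMultiplicity ρ : ℤ) * (adv K v).v (t - ρ)) (F.eval t / G.eval t) := by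
  obtain ⟨S₁, f₁, h₁⟩ := ord_near F hF ρ
  obtain ⟨S₂, f₂, h₂⟩ := unit_near G hG
  have hN0 : (N : K) ≠ 0 := Nat.cast_ne_zero.2 hN
  refine ⟨S₁ ∪ S₂ ∪ {v | (adv K v).v (N : K) ≠ 0} ∪ {v | ¬ (adv K v).G 0 ρ}, ?_, ?_⟩
  · exact ((f₁.union f₂).union (Pool.Agent.K4H56.IF.supp_finite hN0)).union
      (Pool.Agent.K4H56.IF.pole_finite ρ)
  · intro v hv t ht htρ
    simp only [Set.mem_union, Set.mem_ofPred_eq, not_or, not_not] at hv
    obtain ⟨⟨⟨a1, a2⟩, a3⟩, a4⟩ := hv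
    have g0 := ((ht.G0 hN a3).sub a4).resolve_left (sub_ne_zero.2 htρ)
    by_cases hz : (adv K v).v (t - ρ) = 0
    · exact Or.inl hz
    right
    have g1 : (adv K v).G 1 (t - ρ) := Or.inr (by omega)
    have k1 := h₁ v a1 t htρ g1
    have k2 := h₂ v a2 t g1
    have k3 := k1.div k2
    rw [sub_zero] at k3
    refine ⟨k3.mono ?_, k3⟩
    exact mul_nonneg (Nat.cast_nonneg _) g0

/-- at a pole -/
theorem pole_dvd (F G : K[X]) (hG : G ≠ 0) (hcop : IsCoprime F G) {π : K} (hπ : G.eval π = 0)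
    (N : ℕ) (hN : N ≠ 0) (c₀ : ℕ) (hc₀ : c₀ ≠ 0) :
    ∃ S : Set (HeightOneSpectrum (𝓞 K)), S.Finite ∧ ∀ v ∉ S, ∀ t : K, IntD N t → t ≠ π →
      ∀ p : ℕ, Cond K c₀ p (F.eval t / G.eval t) →
        (p : ℤ) ∣ (G.rootMultiplicity π : ℤ) * (adv K v).v (t - π) := by
  have hF : F.eval π ≠ 0 := by
    intro h0
    obtain ⟨a, b, hab⟩ := hcop
    have := congrArg (Polynomial.eval π) hab
    rw [eval_add, eval_mul, eval_mul, h0, hπ, mul_zero, mul_zero, add_zero, eval_one] at this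
    exact zero_ne_one this
  obtain ⟨S₁, f₁, h₁⟩ := ord_near G hG π
  obtain ⟨S₂, f₂, h₂⟩ := unit_near F hF
  have hN0 : (N : K) ≠ 0 := Nat.cast_ne_zero.2 hN
  have hc0 : (c₀ : K) ≠ 0 := Nat.cast_ne_zero.2 hc₀
  refine ⟨S₁ ∪ S₂ ∪ {v | (adv K v).v (N : K) ≠ 0} ∪ {v | ¬ (adv K v).G 0 π} ∪
    {v | (adv K v).v (c₀ : K) ≠ 0}, ?_, ?_⟩
  · exact (((f₁.union f₂).union (Pool.Agent.K4H56.IF.supp_finite hN0)).union
      (Pool.Agent.K4H56.IF.pole_finite π)).union (Pool.Agent.K4H56.IF.supp_finite hc0)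
  · intro v hv t ht htπ p hp
    simp only [Set.mem_union, Set.mem_ofPred_eq, not_or, not_not] at hv
    obtain ⟨⟨⟨⟨a1, a2⟩, a3⟩, a4⟩, a5⟩ := hv
    have g0 := ((ht.G0 hN a3).sub a4).resolve_left (sub_ne_zero.2 htπ)
    by_cases hz : (adv K v).v (t - π) = 0
    · rw [hz, mul_zero]
      exact dvd_zero _
    have g1 : (adv K v).G 1 (t - π) := Or.inr (by omega)
    have k1 := h₁ v a1 t htπ g1
    have k2 := h₂ v a2 t g1
    have k3 := (k2.div k1).2
    rw [zero_sub] at k3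
    have hm : 0 < G.rootMultiplicity π := (rootMultiplicity_pos hG).2 hπ
    have h5 : 0 < (G.rootMultiplicity π : ℤ) * (adv K v).v (t - π) :=
      mul_pos (by exact_mod_cast hm) (by omega)
    have h6 := (hp v a5).1 (by rw [k3]; omega)
    rw [k3] at h6
    exact (dvd_neg (a := (p : ℤ))).1 h6

/-- at a zero of the invariant -/
theorem zero_dvd (F G : K[X]) (hF : F ≠ 0) {ρ : K} (hG : G.eval ρ ≠ 0)
    (h3 : ¬ 3 ∣ F.rootMultiplicity ρ) (N : ℕ) (hN : N ≠ 0) (c₀ : ℕ) (hc₀ : c₀ ≠ 0) :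
    ∃ S : Set (HeightOneSpectrum (𝓞 K)), S.Finite ∧ ∀ v ∉ S, ∀ t : K, IntD N t → t ≠ ρ →
      ∀ p : ℕ, Cond K c₀ p (F.eval t / G.eval t) → (3 : ℤ) ∣ (adv K v).v (t - ρ) := by
  obtain ⟨S₁, f₁, h₁⟩ := zero_near F G hF hG N hN
  have hc0 : (c₀ : K) ≠ 0 := Nat.cast_ne_zero.2 hc₀
  refine ⟨S₁ ∪ {v | (adv K v).v (c₀ : K) ≠ 0},
    f₁.union (Pool.Agent.K4H56.IF.supp_finite hc0), ?_⟩
  intro v hv t ht htρ p hp
  simp only [Set.mem_union, Set.mem_ofPred_eq, not_or, not_not] at hv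
  obtain ⟨a1, a2⟩ := hv
  rcases h₁ v a1 t ht htρ with hz | ⟨hG0, hE⟩
  · rw [hz]
    exact dvd_zero _
  have h5 := ((hp v a2).2 hG0).1
  rw [hE.2] at h5
  rcases Int.prime_three.dvd_or_dvd h5 with h6 | h6
  · exact absurd (by exact_mod_cast h6) h3
  · exact h6

/-- at a zero of the invariant minus `1728` -/
theorem two_dvd (F G : K[X]) (hF : F - C 1728 * G ≠ 0) {σ : K} (hG : G.eval σ ≠ 0)
    (h2 : ¬ 2 ∣ (F - C 1728 * G).rootMultiplicity σ) (N : ℕ) (hN : N ≠ 0) (c₀ : ℕ)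
    (hc₀ : c₀ ≠ 0) :
    ∃ S : Set (HeightOneSpectrum (𝓞 K)), S.Finite ∧ ∀ v ∉ S, ∀ t : K, IntD N t → t ≠ σ →
      G.eval t ≠ 0 →
      ∀ p : ℕ, Cond K c₀ p (F.eval t / G.eval t) → (2 : ℤ) ∣ (adv K v).v (t - σ) := by
  obtain ⟨S₁, f₁, h₁⟩ := zero_near _ G hF hG N hN
  have hc0 : (c₀ : K) ≠ 0 := Nat.cast_ne_zero.2 hc₀
  refine ⟨S₁ ∪ {v | (adv K v).v (c₀ : K) ≠ 0},
    f₁.union (Pool.Agent.K4H56.IF.supp_finite hc0), ?_⟩
  intro v hv t ht htρ hGt p hp
  simp only [Set.mem_union, Set.mem_ofPred_eq, not_or, not_not] at hv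
  obtain ⟨a1, a2⟩ := hv
  have e : (F - C 1728 * G).eval t / G.eval t = F.eval t / G.eval t - 1728 := by
    rw [eval_sub, eval_mul, eval_C]
    field_simp
  rcases h₁ v a1 t ht htρ with hz | ⟨hG0, hE⟩
  · rw [hz]
    exact dvd_zero _
  rw [e] at hG0 hE
  have hG0' : (adv K v).G 0 (F.eval t / G.eval t) := by
    have h1728 : (adv K v).G 0 (1728 : K) := by
      right
      have := v_natCast_nonneg v 1728 (by norm_num)
      exact_mod_cast this
    have := hG0.add h1728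
    rwa [sub_add_cancel] at this
  have h5 := ((hp v a2).2 hG0').2
  rw [hE.2] at h5
  rcases Int.prime_two.dvd_or_dvd h5 with h6 | h6
  · exact absurd (by exact_mod_cast h6) h2
  · exact h6

end near

end Run7.h197.FMZ
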