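import Pool.Agent.Run7.h197.FMZ.Scale

/-!
(superseded by Results/MP_4a0cc8_nt/FamiliesSIntegralParameter) A uniform bound for one-parameter families at integral parameters

Let `K` be a number field, `E₀ : y² = x³ + A₀x + B₀` an elliptic curve over `K`, and `j = F/G` a
nonconstant rational function over `K` in lowest terms (for example the invariant of the Legendre
family, or of any one-parameter family of elliptic curves over `K` which is not isotrivial).

**Theorem.** There is `n₀` such that for all integers `t` of `K` with finitely many exceptions (more
generally for all `t` with a bounded denominator `N`), for EVERY `n ≥ n₀` and EVERY elliptic curve `E`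
over `K` with `j(E) = j(t)` the Galois modules `E[n]` and `E₀[n]` are not isomorphic.

For one level `n` this is a consequence of the theorem of Siegel (and, for large `n`, of Faltings);
the point is the uniformity in `n`.  The finite set of exceptions includes the `t` for which `E` is
isogenous to `E₀`.

Proof.  Let `n` be large.  By the local theorems of helper673 there is a large `p ∣ n` (a prime, or
a power of a small prime up to a bounded factor) such that, at the places outside of a finite set,
`p` divides the order of `j(t)` where it is negative, `3` divides the order of `j(t)` and `2` divides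
the order of `j(t) - 1728` where `j(t)` is integral (`E` has good reduction there).
(a) If `j` has two poles `π`, `π'` over the algebraic closure then `p` divides the orders of `t - π`
and `t - π'` outside of a finite set, up to multiplicities.
(b) If `j` has one pole `π` then by the theorem of Mason and Stothers `j` has a zero `ρ` whose
multiplicity is not divisible by `3`, or `j - 1728` has a zero of odd multiplicity; so
`t - ρ = b z³` (or `b z²`) with finitely many `b`, and `t - π` splits into factors linear in `z`; over
an extension we are in the situation of (a) with `z` in place of `t`.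
(c) If `j` is a polynomial, the conditions at the zeros suffice.
In (a) and (b) we use the theorem of Schinzel and Tijdeman over number fields, with units: there is
`n₀` such that the set of integers `x` of `K` for which the orders of `x - β`, `x - β'` outside of
a finite set of places are divisible by some `n ≥ n₀` is finite, `β ≠ β'`.  This is proved here
(`Run7.h197.ST`) from a lower bound for linear forms in logarithms
`|b₁ log α₁ + ... + bₘ log αₘ| ≥ exp(- (log B) ^ κ log A)` over number fields (`Run7.h197.BK`), in which
`A` is the height of the last number and the others are fixed; it is proved with Baker's method.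
-/

set_option autoImplicit false

open WeierstrassCurve NumberField Polynomial

namespace Run7.h197.FMZ.Old

section
variable {K : Type} [Field K]

/-- The curve `y² = x³ + Ax + B` over `K`. -/
def curve (A B : K) : WeierstrassCurve K := ⟨0, 0, 0, A, B⟩

open scoped Classical in
/-- The group of its points over the algebraic closure of `K`. -/
abbrev Points (A B : K) : Type := ((curve A B).baseChange (AlgebraicClosure K)).toAffine.Point

open scoped Classical in
/-- The action of a `K`-automorphism `σ` of the algebraic closure on the points. -/
noncomputable def galois (A B : K) (σ : AlgebraicClosure K ≃ₐ[K] AlgebraicClosure K) :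
    Points A B →+ Points A B :=
  WeierstrassCurve.Affine.Point.map (σ : AlgebraicClosure K →ₐ[K] AlgebraicClosure K)

open scoped Classical in
/-- The `n`-torsion of `y² = x³ + Ax + B` and that of `y² = x³ + A'x + B'` are isomorphic as Galois
modules: some map between the groups of points restricts to a bijective additive map of the
`n`-torsion which commutes with the Galois group. -/
def Congruent (n : ℕ) (A B A' B' : K) : Prop :=
  ∃ f : Points A B → Points A' B', (∀ P Q, n • P = 0 → n • Q = 0 → f (P + Q) = f P + f Q) ∧
    Set.BijOn f {P | n • P = 0} {Q | n • Q = 0} ∧
    ∀ (σ : AlgebraicClosure K ≃ₐ[K] AlgebraicClosure K) (P : Points A B), n • P = 0 →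
      f (galois A B σ P) = galois A' B' σ (f P)

/-- The invariant of `y² = x³ + Ax + B`. -/
noncomputable def jInvariant (A B : K) : K := 6912 * A ^ 3 / (4 * A ^ 3 + 27 * B ^ 2)

end

/-- **Families with integral parameter.** For an elliptic curve `E₀ : y² = x³ + A₀x + B₀` over a
number field `K`, a nonconstant rational function `F/G` over `K` in lowest terms and `N ≥ 1` there is
`n₀` such that only for finitely many `t` in `K` with `N t` integral some curve over `K` with the
invariant `F(t)/G(t)` is congruent to `E₀` modulo some `n ≥ n₀`. -/
theorem result (K : Type) [Field K] [NumberField K] (A₀ B₀ : K)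
    (h0 : 4 * A₀ ^ 3 + 27 * B₀ ^ 2 ≠ 0) (F G : K[X]) (hcop : IsCoprime F G)
    (hnc : F.natDegree ≠ 0 ∨ G.natDegree ≠ 0) (N : ℕ) (hN : N ≠ 0) :
    ∃ n₀ : ℕ, {t : K | _root_.IsIntegral ℤ ((N : K) * t) ∧ G.eval t ≠ 0 ∧ ∃ n : ℕ, n₀ ≤ n ∧
      ∃ A B : K, 4 * A ^ 3 + 27 * B ^ 2 ≠ 0 ∧ jInvariant A B = F.eval t / G.eval t ∧
        Congruent n A B A₀ B₀}.Finite := by
  obtain ⟨n₀, hfin⟩ := Run7.h197.FMZ.fm' A₀ B₀ h0 F G hcop hnc N hN
  refine ⟨n₀, hfin.subset ?_⟩
  rintro t ⟨ht, hGt, n, hn, A, B, hD, hj, f, h1, h2, h3⟩
  exact ⟨ht, hGt, n, hn, A, B, hD, hj, f, h1, h2, h3⟩

end Run7.h197.FMZ.Old
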