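import Pool.Agent.Run7.h197.FMZ.Main
import Pool.Agent.TH4.FZ.Scale

/-!
Scaling the second curve of a congruence.
-/

set_option autoImplicit false

namespace Run7.h197.FMZ

open NumberField Polynomial
open WeierstrassCurve WeierstrassCurve.Affine Pool.Agent.TH4.FZ
open Pool.Agent.Y673.Loc
open Pool.Agent.Y673.FM (Cong)
open Pool.Agent.H901R3.MS (CV)

section
variable {K : Type} [Field K]

theorem sc_of {A B t : K} (ht : t ≠ 0) :
    Sc ((CV A B).baseChange (AlgebraicClosure K)).toAffine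
      ((CV (t ^ 4 * A) (t ^ 6 * B)).baseChange (AlgebraicClosure K)).toAffine
      (algebraMap K (AlgebraicClosure K) t) where
  a1 := map_zero _
  a2 := map_zero _
  a3 := map_zero _
  b1 := map_zero _
  b2 := map_zero _
  b3 := map_zero _
  h4 := by
    show algebraMap K (AlgebraicClosure K) (t ^ 4 * A) = _ * algebraMap K (AlgebraicClosure K) A
    rw [map_mul, map_pow]
  h6 := by
    show algebraMap K (AlgebraicClosure K) (t ^ 6 * B) = _ * algebraMap K (AlgebraicClosure K) B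
    rw [map_mul, map_pow]
  hu := by
    rw [Ne, map_eq_zero_iff _ (FaithfulSMul.algebraMap_injective K (AlgebraicClosure K))]
    exact ht

open scoped Classical in
/-- scaling the second curve -/
theorem cong_scale {n : ℕ} {A B A₀ B₀ t : K} (ht : t ≠ 0) {f : EP A B → EP A₀ B₀}
    (h : Cong A B A₀ B₀ n f) :
    ∃ f' : EP A B → EP (t ^ 4 * A₀) (t ^ 6 * B₀), Cong A B (t ^ 4 * A₀) (t ^ 6 * B₀) n f' := by
  obtain ⟨h1, h2, h3⟩ := h
  have hs := sc_of (A := A₀) (B := B₀) ht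
  have h0 : ∀ P : EP A₀ B₀, n • P = 0 → n • scl hs P = 0 := by
    intro P hP
    rw [← scl_nsmul, hP]
    rfl
  refine ⟨fun P => scl hs (f P), ⟨?_, ?_, ?_⟩⟩
  · intro P Q hP hQ
    show scl hs (f (P + Q)) = _
    rw [h1 _ _ hP hQ, scl_add]
  · have hb : Set.BijOn (scl hs) {P | n • P = 0} {Q | n • Q = 0} := by
      refine ⟨?_, ?_, ?_⟩
      · intro P hP
        exact h0 P hP
      · intro P _ Q _ hPQ
        have := congrArg (scl hs.symm) hPQ
        rwa [scl_symm, scl_symm] at this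
      · intro P hP
        refine ⟨scl hs.symm P, ?_, scl_symm' hs P⟩
        show n • scl hs.symm P = 0
        rw [← scl_nsmul, hP]
        rfl
    exact hb.comp h2
  · intro σ P hP
    show scl hs (f (act A B σ P)) = act (t ^ 4 * A₀) (t ^ 6 * B₀) σ (scl hs (f P))
    rw [h3 σ P hP]
    rcases f P with _ | ⟨x, y, hn⟩
    · rfl
    · obtain ⟨h', e1⟩ : ∃ h', act A₀ B₀ σ (Point.some x y hn) = Point.some (σ x) (σ y) h' :=
        ⟨_, rfl⟩
      rw [e1]
      show Point.some _ _ _ = Point.some _ _ _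
      have e2 : σ (algebraMap K (AlgebraicClosure K) t) = algebraMap K (AlgebraicClosure K) t :=
        σ.commutes t
      congr 1
      · show _ = σ (_ ^ 2 * x)
        rw [map_mul, map_pow, e2]
      · show _ = σ (_ ^ 3 * y)
        rw [map_mul, map_pow, e2]

end

variable {K : Type} [Field K] [NumberField K]

/-- an integral model -/
theorem exists_model (A₀ B₀ : K) : ∃ (u : K) (a b : 𝓞 K), u ≠ 0 ∧ (a : K) = u ^ 4 * A₀ ∧
    (b : K) = u ^ 6 * B₀ := by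
  obtain ⟨N, hN, h1⟩ := exists_IntD A₀
  obtain ⟨M, hM, h2⟩ := exists_IntD B₀
  have hint : ∀ n : ℕ, IsIntegral ℤ (n : K) := fun n => Pool.Agent.K4H56.IF.isIntegral_nat n
  have h1' : IsIntegral ℤ ((N : K) * A₀) := h1
  have h2' : IsIntegral ℤ ((M : K) * B₀) := h2
  have i1 : _root_.IsIntegral ℤ (((N * M : ℕ) : K) ^ 4 * A₀) := by
    have e : ((N * M : ℕ) : K) ^ 4 * A₀ = (N : K) ^ 3 * (M : K) ^ 4 * ((N : K) * A₀) := by
      push_cast; ring
    rw [e]
    exact (((hint N).pow 3).mul ((hint M).pow 4)).mul h1'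
  have i2 : _root_.IsIntegral ℤ (((N * M : ℕ) : K) ^ 6 * B₀) := by
    have e : ((N * M : ℕ) : K) ^ 6 * B₀ = (N : K) ^ 6 * (M : K) ^ 5 * ((M : K) * B₀) := by
      push_cast; ring
    rw [e]
    exact (((hint N).pow 6).mul ((hint M).pow 5)).mul h2'
  exact ⟨((N * M : ℕ) : K), ⟨_, i1⟩, ⟨_, i2⟩, Nat.cast_ne_zero.2 (mul_ne_zero hN hM), rfl, rfl⟩

open scoped Classical in
/-- **Uniform bound for congruences in a family with integral parameter.** -/
theorem fm' (A₀ B₀ : K) (h0 : 4 * A₀ ^ 3 + 27 * B₀ ^ 2 ≠ 0) (F G : K[X]) (hcop : IsCoprime F G)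
    (hnc : F.natDegree ≠ 0 ∨ G.natDegree ≠ 0) (N : ℕ) (hN : N ≠ 0) :
    ∃ n₀ : ℕ, {t : K | IsIntegral ℤ ((N : K) * t) ∧ G.eval t ≠ 0 ∧ ∃ n : ℕ, n₀ ≤ n ∧
      ∃ A B : K, 4 * A ^ 3 + 27 * B ^ 2 ≠ 0 ∧ jv A B = F.eval t / G.eval t ∧
        ∃ f : EP A B → EP A₀ B₀, Cong A B A₀ B₀ n f}.Finite := by
  obtain ⟨u, a, b, hu, ha, hb⟩ := exists_model A₀ B₀
  have h1 : 4 * a ^ 3 + 27 * b ^ 2 ≠ 0 := by
    intro h2
    have h3 : algebraMap (𝓞 K) K (4 * a ^ 3 + 27 * b ^ 2) = 0 := by rw [h2, map_zero]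
    rw [map_add, map_mul, map_mul, map_pow, map_pow, map_ofNat, map_ofNat] at h3
    have ha' : algebraMap (𝓞 K) K a = u ^ 4 * A₀ := ha
    have hb' : algebraMap (𝓞 K) K b = u ^ 6 * B₀ := hb
    rw [ha', hb'] at h3
    have h4 : u ^ 12 * (4 * A₀ ^ 3 + 27 * B₀ ^ 2) = 0 := by rw [← h3]; ring
    exact mul_ne_zero (pow_ne_zero _ hu) h0 h4
  obtain ⟨n₀, hfin⟩ := fm a b h1 F G hcop hnc N hN
  refine ⟨n₀, hfin.subset ?_⟩
  rintro t ⟨ht, hGt, n, hn, A, B, hD, hj, f, hf⟩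
  refine ⟨ht, hGt, n, hn, A, B, hD, hj, ?_⟩
  rw [ha, hb]
  exact cong_scale hu hf

end Run7.h197.FMZ
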